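import Pool.Agent.H983R3.Main

/-! AD-D1: nets of the hyperbolic line (helper217 for helper920). -/

set_option autoImplicit false

namespace Pool.Agent.Y217.AD

open Pool.Agent.H983R3 Filter Topology

/-- the coordinate -/
noncomputable def ss (p : Hyp 1) : ℝ := Real.log p.h

/-- the point with given coordinate -/
noncomputable def pp (t : ℝ) : Hyp 1 := ⟨0, Real.exp t, Real.exp_pos t⟩

theorem ss_pp (t : ℝ) : ss (pp t) = t := Real.log_exp t

theorem hd (p q : Hyp 1) : hdist p q = |ss p - ss q| := by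
  have h1 := p.pos
  have h2 := q.pos
  have hx : ‖p.x - q.x‖ = 0 := by
    rw [norm_eq_zero]
    exact Subsingleton.elim (α := EuclideanSpace ℝ (Fin 0)) _ _
  have e : 1 + (‖p.x - q.x‖ ^ 2 + (p.h - q.h) ^ 2) / (2 * p.h * q.h) =
      Real.cosh |ss p - ss q| := by
    rw [Real.cosh_abs, Real.cosh_eq, Real.exp_neg]
    unfold ss
    rw [Real.exp_sub, Real.exp_log h1, Real.exp_log h2, hx]
    field_simp
    ring
  unfold hdist
  rw [e, Real.arcosh_cosh (abs_nonneg _)]

theorem upper (Z : Set (Hyp 1)) (hZ : IsNet Z) : AsdimLE (oPoly 1) Z 1 := by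
  obtain ⟨⟨ε, hε, hsep⟩, -⟩ := hZ
  intro r hr
  set L : ℝ := 4 * r + 1 with hL
  have hL0 : 0 < L := by positivity
  obtain ⟨M, hM⟩ := exists_nat_ge (L / ε)
  refine ⟨ℤ, fun i => {z | z ∈ Z ∧ ⌊ss z / L⌋ = i}, ?_, ?_, fun _ => ((M + 2 : ℕ) : ℝ), ?_, ?_⟩
  · ext z
    simp only [Set.mem_iUnion, Set.mem_setOf_eq]
    exact ⟨fun ⟨_, h⟩ => h.1, fun h => ⟨_, h, rfl⟩⟩
  · intro z _
    set a : ℤ := ⌊(ss z - r) / L⌋ with ha
    have hsub : {i : ℤ | ∃ y ∈ {z | z ∈ Z ∧ ⌊ss z / L⌋ = i}, hdist z y ≤ r} ⊆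
        (({a, a + 1} : Finset ℤ) : Set ℤ) := by
      rintro i ⟨y, ⟨-, hy⟩, hzy⟩
      rw [hd, abs_le] at hzy
      have h1 : (ss z - r) / L ≤ ss y / L := div_le_div_of_nonneg_right (by linarith) hL0.le
      have h2 : ss y / L ≤ (ss z - r) / L + 1 := by
        rw [div_add_one hL0.ne']
        apply div_le_div_of_nonneg_right _ hL0.le
        rw [hL]
        linarith
      have h3 : a ≤ ⌊ss y / L⌋ := Int.floor_le_floor h1
      have h4 : ⌊ss y / L⌋ ≤ a + 1 := by
        have := Int.floor_le_floor h2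
        rwa [Int.floor_add_one] at this
      rw [hy] at h3 h4
      simp only [Finset.coe_insert, Finset.coe_singleton, Set.mem_insert_iff,
        Set.mem_singleton_iff]
      omega
    refine (Set.encard_le_encard hsub).trans ?_
    rw [Set.encard_coe_eq_coe_finsetCard]
    exact_mod_cast Finset.card_le_two
  · refine ⟨fun t _ => by positivity, fun s t _ _ => le_rfl, ?_⟩
    simp only [pow_one]
    exact tendsto_const_nhds.div_atTop tendsto_id
  · intro i x _ t _
    have key := fin_of_inj (A := {y | y ∈ {z | z ∈ Z ∧ ⌊ss z / L⌋ = i} ∧ hdist x y ≤ t})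
      (s := Finset.Icc ⌊((i : ℝ) * L) / ε⌋ (⌊((i : ℝ) * L) / ε⌋ + (M : ℤ) + 1))
      (fun z => ⌊ss z / ε⌋) ?_ ?_
    · refine ⟨key.1, ?_⟩
      have h1 := key.2
      rw [Int.card_Icc] at h1
      have h2 : {y | y ∈ {z | z ∈ Z ∧ ⌊ss z / L⌋ = i} ∧ hdist x y ≤ t}.ncard ≤ M + 2 := by omega
      have h3 : (({y | y ∈ {z | z ∈ Z ∧ ⌊ss z / L⌋ = i} ∧ hdist x y ≤ t}.ncard : ℕ) : ℝ) ≤
          ((M + 2 : ℕ) : ℝ) := Nat.cast_le.2 h2
      exact h3
    · rintro z ⟨⟨-, hz⟩, -⟩
      have h1 : (i : ℝ) ≤ ss z / L := by rw [← hz]; exact Int.floor_le _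
      have h2 : ss z / L < i + 1 := by rw [← hz]; exact Int.lt_floor_add_one _
      rw [le_div_iff₀ hL0] at h1
      rw [div_lt_iff₀ hL0] at h2
      apply Par.floor_mem hε (b := ((i : ℝ) + 1) * L) h1 h2.le
      have : ((i : ℝ) + 1) * L - i * L = L := by ring
      rw [this]
      exact hM
    · rintro z ⟨⟨hz, -⟩, -⟩ w ⟨⟨hw, -⟩, -⟩ hzw
      have h1 := Par.floor_close hε hzw
      by_contra hne
      have h2 := hsep z hz w hw hne
      rw [hd] at h2
      linarith

theorem lower (Z : Set (Hyp 1)) (hZ : IsNet Z) : ¬ AsdimLE (oPoly 1) Z 0 := by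
  classical
  intro h
  obtain ⟨-, R, hR⟩ := hZ
  set R0 : ℝ := |R| + 1 with hR0
  have hR00 : 0 < R0 := by positivity
  have hcd : ∀ t : ℝ, ∃ y ∈ Z, |t - ss y| ≤ R0 := by
    intro t
    obtain ⟨y, hy, hyt⟩ := hR (pp t)
    rw [hd, ss_pp] at hyt
    exact ⟨y, hy, hyt.trans (by rw [hR0]; linarith [le_abs_self R])⟩
  set S : ℝ := 2 * R0 + 1 with hS
  have hS0 : 0 < S := by positivity
  choose z hz hzd using fun k : ℕ => hcd (k * S)
  have hzinj : Function.Injective z := by
    have aux : ∀ k l : ℕ, k < l → z k ≠ z l := by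
      intro k l hkl he
      have h1 := hzd k
      have h2 := hzd l
      rw [he] at h1
      rw [abs_le] at h1 h2
      have h3 : (k : ℝ) + 1 ≤ l := by exact_mod_cast hkl
      have h4 : ((k : ℝ) + 1) * S ≤ l * S := mul_le_mul_of_nonneg_right h3 hS0.le
      have h5 : (l : ℝ) * S - k * S ≤ 2 * R0 := by linarith [h1.1, h2.2]
      rw [add_mul, one_mul] at h4
      rw [hS] at h4 h5
      linarith
    intro k l hkl
    rcases lt_trichotomy k l with h1 | h1 | h1
    · exact absurd hkl (aux k l h1)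
    · exact h1
    · exact absurd hkl.symm (aux l k h1)
  obtain ⟨ι, X, hU, hmul, f, hf, hgr⟩ := h (2 * S) (by positivity)
  have hmem : ∀ w ∈ Z, ∃ i, w ∈ X i := by
    intro w hw
    rw [← hU] at hw
    exact Set.mem_iUnion.1 hw
  obtain ⟨i0, hi0⟩ := hmem _ (hz 0)
  have hall : ∀ k, z k ∈ X i0 := by
    intro k
    induction k with
    | zero => exact hi0
    | succ k ih =>
      obtain ⟨j, hj⟩ := hmem _ (hz (k + 1))
      have h1 := hmul (z k) (hz k)
      have h2 : {i | ∃ y ∈ X i, hdist (z k) y ≤ 2 * S}.encard ≤ 1 := by simpa using h1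
      rw [Set.encard_le_one_iff] at h2
      have h3 := h2 i0 j ⟨z k, ih, by rw [hdist_self]; positivity⟩ ⟨z (k + 1), hj, by
        rw [hd]
        have a1 := hzd k
        have a2 := hzd (k + 1)
        rw [abs_le] at a1 a2 ⊢
        push_cast at a2
        rw [add_mul, one_mul] at a2
        constructor
        · have := a1.1; have := a1.2; have := a2.1; have := a2.2
          rw [hS] at *
          linarith
        · have := a1.1; have := a1.2; have := a2.1; have := a2.2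
          rw [hS] at *
          linarith⟩
      rw [h3]
      exact hj
  obtain ⟨-, -, hlim⟩ := hf
  have hev : ∀ᶠ t in atTop, f t / t ^ 1 < 1 / S :=
    (tendsto_order.1 hlim).2 _ (by positivity)
  have hseq : Tendsto (fun n : ℕ => (n : ℝ) * S + 2 * R0) atTop atTop :=
    tendsto_atTop_add_const_right _ _ (tendsto_natCast_atTop_atTop.atTop_mul_const hS0)
  obtain ⟨n, hn⟩ := (hseq.eventually hev).exists
  set t : ℝ := (n : ℝ) * S + 2 * R0 with ht
  have ht0 : 0 < t := by positivity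
  obtain ⟨hfin, hcard⟩ := hgr i0 (z 0) (hall 0) t ht0.le
  have hsub : (((Finset.range (n + 1)).image z : Finset (Hyp 1)) : Set (Hyp 1)) ⊆
      {y | y ∈ X i0 ∧ hdist (z 0) y ≤ t} := by
    intro w hw
    rw [Finset.mem_coe, Finset.mem_image] at hw
    obtain ⟨k, hk, rfl⟩ := hw
    rw [Finset.mem_range] at hk
    refine ⟨hall k, ?_⟩
    rw [hd]
    have a1 := hzd 0
    have a2 := hzd k
    have hk2 : (k : ℝ) * S ≤ n * S := mul_le_mul_of_nonneg_right (by
      exact_mod_cast Nat.lt_succ_iff.1 hk) hS0.le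
    have hk3 : 0 ≤ (k : ℝ) * S := by positivity
    rw [abs_le] at a1 a2 ⊢
    rw [Nat.cast_zero, zero_mul] at a1
    rw [ht]
    constructor
    · linarith [a1.1, a1.2, a2.1, a2.2]
    · linarith [a1.1, a1.2, a2.1, a2.2]
  have h1 := Set.ncard_le_ncard hsub hfin
  rw [Set.ncard_coe_finset, Finset.card_image_of_injective _ hzinj, Finset.card_range] at h1
  have h2 : ((n : ℝ) + 1) ≤ f t := by
    have : ((n + 1 : ℕ) : ℝ) ≤ ({y | y ∈ X i0 ∧ hdist (z 0) y ≤ t}.ncard : ℝ) := by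
      exact_mod_cast h1
    push_cast at this
    exact this.trans hcard
  rw [pow_one, div_lt_div_iff₀ ht0 hS0, one_mul] at hn
  have h3 : ((n : ℝ) + 1) * S ≤ f t * S := mul_le_mul_of_nonneg_right h2 hS0.le
  have h4 : t < ((n : ℝ) + 1) * S := by
    rw [ht, add_mul, one_mul, hS]
    linarith
  linarith

theorem t_D1 : ∀ Z : Set (Pool.Agent.H983R3.Hyp 1), Pool.Agent.H983R3.IsNet Z →
    Pool.Agent.H983R3.asdim (Pool.Agent.H983R3.oPoly 1) Z = 1 := by
  intro Z hZ
  unfold asdim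
  apply le_antisymm
  · have := iInf_le (fun n : {n : ℕ // AsdimLE (oPoly 1) Z n} => ((n : ℕ) : ℕ∞))
      ⟨1, upper Z hZ⟩
    simpa using this
  · refine le_iInf fun n => ?_
    have h1 : (n : ℕ) ≠ 0 := by
      intro h0
      have := n.2
      rw [h0] at this
      exact lower Z hZ this
    exact_mod_cast Nat.one_le_iff_ne_zero.2 h1

end Pool.Agent.Y217.AD
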