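import Pool.Agent.Y920.AD.Stm

/-! AD-PACK: separated points in a box of one level (helper217 for helper920; adapted from
`Pool.Agent.H983R3.Par.packing`). -/

set_option autoImplicit false

namespace Pool.Agent.Y217.AD

open Pool.Agent.H983R3 Pool.Agent.Y920.AD

lemma coord_le' {m : ℕ} (v : EuclideanSpace ℝ (Fin m)) (i : Fin m) : |v i| ≤ ‖v‖ := by
  rw [← Real.norm_eq_abs]
  exact PiLp.norm_apply_le v i

theorem t_PACK : S_PACK := by
  intro d P ε E hε
  have hκ : 0 < Real.cosh ε - 1 := by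
    have := (Real.one_lt_cosh (x := ε)).2 hε.ne'; linarith
  set κ := Real.cosh ε - 1 with hκd
  set D : ℝ := (d : ℝ) + 1 with hDd
  have hD : 0 < D := by positivity
  set σ := min 1 (κ / D) with hσd
  have hσ : 0 < σ := lt_min one_pos (by positivity)
  have hσ1 : σ ≤ 1 := min_le_left _ _
  have hσ2 : σ ≤ κ / D := min_le_right _ _
  have hσ3 : D * σ ≤ κ := by
    rw [le_div_iff₀ hD] at hσ2
    linarith
  obtain ⟨M1, hM1⟩ := exists_nat_ge (2 * |E| * P.l / σ)
  obtain ⟨M2, hM2⟩ := exists_nat_ge (P.l / σ)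
  refine ⟨(M1 + 2) ^ (d - 1) * (M2 + 2), ?_⟩
  intro A n hsep hlev hdiam
  rcases A.eq_empty_or_nonempty with rfl | ⟨a, ha⟩
  · simp
  have hu1 := P.u_pos (n + 1)
  have hu := P.u_pos n
  set s := σ * P.u (n + 1) with hsd
  have hs : 0 < s := by positivity
  have hun : P.u n = P.l * P.u (n + 1) := P.u_succ n
  have hratio : P.u n / s = P.l / σ := by
    rw [hun, hsd]; field_simp
  have key := fin_of_inj (A := A)
    (s := (Fintype.piFinset (fun i : Fin (d - 1) =>
        Finset.Icc ⌊(a.x i - |E| * P.u n) / s⌋ (⌊(a.x i - |E| * P.u n) / s⌋ + (M1 : ℤ) + 1))) ×ˢ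
      (Finset.Icc ⌊(0 : ℝ) / s⌋ (⌊(0 : ℝ) / s⌋ + (M2 : ℤ) + 1)))
    (fun z => (fun i => ⌊z.x i / s⌋, ⌊z.h / s⌋)) ?_ ?_
  · refine ⟨key.1, key.2.trans ?_⟩
    rw [Finset.card_product, Fintype.card_piFinset]
    have h1 : ∀ i : Fin (d - 1),
        (Finset.Icc ⌊(a.x i - |E| * P.u n) / s⌋
          (⌊(a.x i - |E| * P.u n) / s⌋ + (M1 : ℤ) + 1)).card = M1 + 2 := by
      intro i
      rw [Int.card_Icc]
      omega
    simp only [h1, Finset.prod_const, Finset.card_univ, Fintype.card_fin]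
    apply Nat.mul_le_mul le_rfl
    rw [Int.card_Icc]
    omega
  · intro z hz
    have hsp := P.lev_spec z.pos
    rw [hlev z hz] at hsp
    rw [Finset.mem_product, Fintype.mem_piFinset]
    refine ⟨fun i => ?_, ?_⟩
    · have h1 : |(z.x - a.x) i| ≤ |E| * P.u n :=
        (coord_le' _ i).trans ((hdiam z hz a ha).trans
          (mul_le_mul_of_nonneg_right (le_abs_self E) hu.le))
      have h2 : (z.x - a.x) i = z.x i - a.x i := rfl
      rw [h2, abs_le] at h1
      apply Par.floor_mem hs (b := a.x i + |E| * P.u n)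
      · linarith [h1.1]
      · linarith [h1.2]
      · have e1 : a.x i + |E| * P.u n - (a.x i - |E| * P.u n) = 2 * |E| * P.u n := by ring
        have e2 : (2 * |E| * P.u n) / s = 2 * |E| * P.l / σ := by
          rw [mul_div_assoc, hratio]; ring
        rw [e1, e2]
        exact hM1
    · apply Par.floor_mem hs (b := P.u n)
      · exact z.pos.le
      · exact hsp.2
      · rw [sub_zero, hratio]; exact hM2
  · intro z hz w hw hzw
    simp only [Prod.mk.injEq] at hzw
    obtain ⟨e0, e2⟩ := hzw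
    have d2 := Par.floor_close hs e2
    by_contra hne
    have hge := hsep z hz w hw hne
    have hz1 := (P.lev_spec z.pos).1
    have hw1 := (P.lev_spec w.pos).1
    rw [hlev z hz] at hz1
    rw [hlev w hw] at hw1
    have hlt : hdist z w < ε := by
      apply hdist_lt hε
      have a0 : ‖z.x - w.x‖ ^ 2 ≤ D * s ^ 2 - s ^ 2 := by
        rw [EuclideanSpace.norm_sq_eq]
        have h1 : ∀ i : Fin (d - 1), ‖(z.x - w.x) i‖ ^ 2 ≤ s ^ 2 := by
          intro i
          have h2 : |z.x i - w.x i| < s := Par.floor_close hs (congrFun e0 i)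
          have h3 : (z.x - w.x) i = z.x i - w.x i := rfl
          rw [h3, Real.norm_eq_abs]
          exact pow_le_pow_left₀ (abs_nonneg _) h2.le 2
        have h4 := Finset.sum_le_card_nsmul Finset.univ
          (fun i : Fin (d - 1) => ‖(z.x - w.x) i‖ ^ 2) (s ^ 2) (fun i _ => h1 i)
        rw [nsmul_eq_mul, Finset.card_univ, Fintype.card_fin] at h4
        have h5 : ((d - 1 : ℕ) : ℝ) ≤ d := by exact_mod_cast Nat.sub_le d 1
        have h6 : ((d - 1 : ℕ) : ℝ) * s ^ 2 ≤ d * s ^ 2 :=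
          mul_le_mul_of_nonneg_right h5 (sq_nonneg s)
        have h7 : D * s ^ 2 - s ^ 2 = d * s ^ 2 := by rw [hDd]; ring
        rw [h7]
        exact h4.trans h6
      have a2 : (z.h - w.h) ^ 2 < s ^ 2 := by
        rw [← sq_abs (z.h - w.h)]
        exact pow_lt_pow_left₀ d2 (abs_nonneg _) (by norm_num)
      have b1 : P.u (n + 1) * P.u (n + 1) ≤ z.h * w.h :=
        mul_le_mul hz1.le hw1.le hu1.le z.pos.le
      have b2 : D * s ^ 2 ≤ 2 * (P.u (n + 1) * P.u (n + 1)) * κ := by
        rw [hsd]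
        have : D * (σ * P.u (n + 1)) ^ 2 = (D * σ) * σ * (P.u (n + 1) * P.u (n + 1)) := by ring
        rw [this]
        have h3 : (D * σ) * σ ≤ κ * 1 := mul_le_mul hσ3 hσ1 hσ.le hκ.le
        have h4 : 0 ≤ P.u (n + 1) * P.u (n + 1) := by positivity
        nlinarith
      have b3 : 2 * (P.u (n + 1) * P.u (n + 1)) * κ ≤ 2 * z.h * w.h * κ := by
        have : 2 * z.h * w.h * κ = 2 * (z.h * w.h) * κ := by ring
        rw [this]
        apply mul_le_mul_of_nonneg_right _ hκ.le
        linarith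
      linarith
    linarith

end Pool.Agent.Y217.AD
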